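import Pool.Agent.Work.MP_80ee1d_an.Final

open CritSys

/-- An explicit range of small couplings with a positive ground state. -/
theorem CritSys.old_lower_explicit_result (Ω : Set E4) (ho : IsOpen Ω)
    (hc : IsConnected Ω) (hb : Bornology.IsBounded Ω) (l₁ l₂ μ₁ μ₂ : ℝ) (k1 : -lam1 Ω < l₁)
    (k2 : l₁ < l₂) (k3 : l₂ < 0) (h1 : 0 < μ₁) (h2 : 0 < μ₂) :
    ∃ ε : ℝ, 0 < ε ∧ ∀ β : ℝ, 0 ≤ β →
      β < min (μ₁ + ε) ((lam1 Ω + l₁) / (lam1 Ω + l₂) * μ₂) → HasGroundState Ω l₁ l₂ μ₁ μ₂ β :=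
  final_explicit Ω ho hc hb l₁ l₂ μ₁ μ₂ k1 k2 k3 h1 h2
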