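import Pool.Agent.Work.MP_80ee1d_an.U.Univ

open CritSys

/-- The set of couplings with a positive ground state can be prescribed on finite sets. -/
theorem CritSys.old_universal_result (μ₁ μ₂ : ℝ) (h1 : 0 < μ₁) (h2 : 0 < μ₂)
    (A B : Finset ℝ) (hA : ∀ a ∈ A, 0 < a ∧ (a < μ₂ ∨ μ₁ < a) ∧ a ^ 2 ≠ μ₁ * μ₂)
    (hB : ∀ b ∈ B, 0 < b) (hAB : ∀ a ∈ A, ∀ b ∈ B, a ≠ b ∧ a * b ≠ μ₁ * μ₂) :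
    ∃ (Ω : Set E4) (l₁ l₂ : ℝ), SmoothDomain Ω ∧ -lam1 Ω < l₁ ∧ l₁ < l₂ ∧ l₂ < 0 ∧
      (∀ a ∈ A, HasGroundState Ω l₁ l₂ μ₁ μ₂ a) ∧ ∀ b ∈ B, ¬ HasGroundState Ω l₁ l₂ μ₁ μ₂ b :=
  final_universal μ₁ μ₂ h1 h2 A B hA hB hAB
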